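import Pool.Agent.Lib.MP_3266c7_gt.Final

/-!
# Separately continuous, nowhere continuous functions on strongly Choquet times compact

For every cardinal `c` there are a strongly Choquet (strongly alpha-favorable)
zero-dimensional Hausdorff space `E` in which the intersection of `c` open sets is open and
the intersection of `c` dense open sets is dense, a zero-dimensional compact Hausdorff space
`K`, and a separately continuous function `f : E × K → {0, 1}` without any point of joint
continuity; moreover no restriction of `f` to a non-meagre set with the Baire property is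
continuous.
-/

open Cardinal Set

universe u

namespace Pool.Agent.Results.MP_3266c7_gt.StronglyChoquet

/-- Every point has a neighbourhood base of sets which are both closed and open. -/
def ZeroDimensional (E : Type u) [TopologicalSpace E] : Prop :=
  ∀ (x : E) (U : Set E), IsOpen U → x ∈ U → ∃ C : Set E, IsClopen C ∧ x ∈ C ∧ C ⊆ U

/-- Player Nonempty has a stationary winning strategy in the strong Choquet game: in round
`n` the opponent plays an open set `U n` and a point `x n ∈ U n`, where `U (n + 1)` is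
contained in the previous answer, and Nonempty answers with the open set `σ (x n) (U n)`,
which contains `x n` and is contained in `U n`; then the intersection of all `U n` is
non-empty. -/
def StronglyChoquetSpace (E : Type u) [TopologicalSpace E] : Prop :=
  ∃ σ : E → Set E → Set E,
    (∀ (x : E) (U : Set E), IsOpen U → x ∈ U → IsOpen (σ x U) ∧ x ∈ σ x U ∧ σ x U ⊆ U) ∧
    ∀ (x : ℕ → E) (U : ℕ → Set E), (∀ n, IsOpen (U n) ∧ x n ∈ U n) →
      (∀ n, U (n + 1) ⊆ σ (x n) (U n)) → (⋂ n, U n).Nonempty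

theorem result (c : Cardinal.{u}) :
    ∃ (E K : Type u) (_ : TopologicalSpace E) (_ : TopologicalSpace K) (f : E × K → ℝ),
      Nonempty E ∧ Nonempty K ∧
      T2Space E ∧ ZeroDimensional E ∧ StronglyChoquetSpace E ∧ BaireSpace E ∧
      (∀ S : Set (Set E), #S ≤ c → (∀ U ∈ S, IsOpen U) → IsOpen (⋂₀ S)) ∧
      (∀ S : Set (Set E), #S ≤ c → (∀ U ∈ S, IsOpen U ∧ Dense U) → Dense (⋂₀ S)) ∧
      CompactSpace K ∧ T2Space K ∧ TotallyDisconnectedSpace K ∧ BaireSpace (E × K) ∧
      (∀ x, Continuous fun y => f (x, y)) ∧ (∀ y, Continuous fun x => f (x, y)) ∧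
      (∀ p, f p = 0 ∨ f p = 1) ∧ (∀ p, ¬ ContinuousAt f p) ∧
      ∀ B : Set (E × K), BaireMeasurableSet B → ¬ IsMeagre B → ¬ ContinuousOn f B := by
  obtain ⟨I, A, hI1, hI2, hA, e, hD, hc⟩ := Lib.MP_3266c7_gt.exists_dat c
  have : Fact (ℵ₀ < #I) := ⟨hD.unc⟩
  refine ⟨Lib.MP_3266c7_gt.Node I A, ↥(Lib.MP_3266c7_gt.KS (I := I) e), inferInstance,
    inferInstance, Lib.MP_3266c7_gt.ev, ?_, ?_, Lib.MP_3266c7_gt.t2,
    Lib.MP_3266c7_gt.zeroDim, ⟨Lib.MP_3266c7_gt.nb, fun x U hU hx =>
      ⟨Lib.MP_3266c7_gt.isOpen_nb hU hx, Lib.MP_3266c7_gt.mem_nb x U,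
        Lib.MP_3266c7_gt.nb_subset hx⟩, Lib.MP_3266c7_gt.choquet hD.bdd⟩,
    Lib.MP_3266c7_gt.baire_node hD,
    fun S hS h => Lib.MP_3266c7_gt.isOpen_sInter S (hS.trans hc.le) h,
    fun S hS h => Lib.MP_3266c7_gt.dense_sInter hD.bdd hD.card S (hS.trans_lt hc) h,
    inferInstance, inferInstance, inferInstance, Lib.MP_3266c7_gt.baire_prod hD,
    Lib.MP_3266c7_gt.continuous_ev_right, Lib.MP_3266c7_gt.continuous_ev_left hD, ?_,
    Lib.MP_3266c7_gt.not_continuousAt hD, Lib.MP_3266c7_gt.not_continuousOn hD⟩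
  · obtain ⟨x, -⟩ := hD.bdd ∅ (by rw [mk_eq_zero]; exact aleph0_pos.trans hD.unc)
    exact ⟨⟨x, fun _ => Classical.arbitrary A, fun _ _ => rfl⟩⟩
  · exact ⟨⟨fun _ => false, Lib.MP_3266c7_gt.const_mem_KS e false⟩⟩
  · intro p
    unfold Lib.MP_3266c7_gt.ev
    cases p.2.1 p.1 <;> simp

end Pool.Agent.Results.MP_3266c7_gt.StronglyChoquet
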